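import Pool.Agent.W243.TD.Stm

/-! # Project TD: pigeonhole for complex linear forms -/

set_option autoImplicit false

namespace Pool.Agent.W85.TD

open Pool.Agent.W243.TD

theorem pig : S_pig := by
  classical
  intro C J _ _ a X E ha hX hE hcard
  obtain ⟨M, hM⟩ : ∃ M : ℕ, M = Fintype.card J * X * E := ⟨_, rfl⟩
  rw [← hM] at hcard
  -- the linear forms
  let v : (J → Fin (X + 1)) → C → ℂ := fun u q => ∑ j, a q j * ((u j : ℕ) : ℂ)
  have hv : ∀ u q, ‖v u q‖ ≤ Fintype.card J * X := by
    intro u q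
    refine (norm_sum_le _ _).trans ?_
    calc ∑ j, ‖a q j * ((u j : ℕ) : ℂ)‖ ≤ ∑ _j : J, (X : ℝ) := by
          refine Finset.sum_le_sum fun j _ => ?_
          rw [norm_mul, Complex.norm_natCast]
          have h1 : ((u j : ℕ) : ℝ) ≤ X := by
            exact_mod_cast Nat.lt_succ_iff.1 (u j).2
          calc ‖a q j‖ * ((u j : ℕ) : ℝ) ≤ 1 * (X : ℝ) :=
                mul_le_mul (ha q j) h1 (Nat.cast_nonneg _) zero_le_one
            _ = X := one_mul _
      _ = _ := by simp
  let w : (J → Fin (X + 1)) → C × Bool → ℝ := fun u qb =>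
    (E : ℝ) * (if qb.2 then (v u qb.1).re else (v u qb.1).im)
  have hE0 : (0 : ℝ) < E := by exact_mod_cast hE
  have hw : ∀ u qb, |w u qb| ≤ M := by
    intro u qb
    show |(E : ℝ) * (if qb.2 then (v u qb.1).re else (v u qb.1).im)| ≤ M
    rw [abs_mul, abs_of_pos hE0, hM]
    push_cast
    have h1 : |if qb.2 then (v u qb.1).re else (v u qb.1).im| ≤ Fintype.card J * X := by
      split_ifs
      · exact (Complex.abs_re_le_norm _).trans (hv _ _)
      · exact (Complex.abs_im_le_norm _).trans (hv _ _)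
    calc (E : ℝ) * |if qb.2 then (v u qb.1).re else (v u qb.1).im| ≤ E * (Fintype.card J * X) :=
          mul_le_mul_of_nonneg_left h1 hE0.le
      _ = _ := by ring
  have hfl : ∀ u qb, -(M : ℤ) ≤ ⌊w u qb⌋ ∧ ⌊w u qb⌋ ≤ M := by
    intro u qb
    have := abs_le.1 (hw u qb)
    constructor
    · rw [Int.le_floor]; push_cast; exact this.1
    · have h2 : (⌊w u qb⌋ : ℝ) ≤ M := (Int.floor_le _).trans this.2
      exact_mod_cast h2
  let f : (J → Fin (X + 1)) → (C × Bool → Fin (2 * M + 1)) := fun u qb =>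
    ⟨(⌊w u qb⌋ + M).toNat, by
      have := hfl u qb
      omega⟩
  have hlt : Fintype.card (C × Bool → Fin (2 * M + 1)) < Fintype.card (J → Fin (X + 1)) := by
    simp only [Fintype.card_fun, Fintype.card_fin, Fintype.card_prod, Fintype.card_bool]
    rw [mul_comm (Fintype.card C) 2]
    exact hcard
  obtain ⟨u, u', hne, hf⟩ := Fintype.exists_ne_map_eq_of_card_lt f hlt
  have hflo : ∀ qb, ⌊w u qb⌋ = ⌊w u' qb⌋ := by
    intro qb
    have h1 := congrArg Fin.val (congrFun hf qb)
    have h2 : (⌊w u qb⌋ + M).toNat = (⌊w u' qb⌋ + M).toNat := h1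
    have h3 := hfl u qb
    have h4 := hfl u' qb
    omega
  have hd : ∀ qb, |w u qb - w u' qb| < 1 := fun qb => Int.abs_sub_lt_one_of_floor_eq_floor (hflo qb)
  refine ⟨fun j => ((u j : ℕ) : ℤ) - ((u' j : ℕ) : ℤ), ?_, ?_, ?_⟩
  · intro h0
    apply hne
    funext j
    have := congrFun h0 j
    apply Fin.ext
    simp only [Pi.zero_apply] at this
    omega
  · intro j
    have h1 := (u j).2
    have h2 := (u' j).2
    show |((u j : ℕ) : ℤ) - ((u' j : ℕ) : ℤ)| ≤ (X : ℤ)
    rw [abs_le]
    constructor <;> omega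
  · intro q
    have hs : ∑ j, a q j * ((((u j : ℕ) : ℤ) - ((u' j : ℕ) : ℤ) : ℤ) : ℂ) = v u q - v u' q := by
      show _ = ∑ j, a q j * ((u j : ℕ) : ℂ) - ∑ j, a q j * ((u' j : ℕ) : ℂ)
      rw [← Finset.sum_sub_distrib]
      refine Finset.sum_congr rfl fun j _ => ?_
      push_cast
      ring
    rw [hs]
    have h1 : |E * (v u q - v u' q).re| < 1 := by
      have := hd (q, true)
      have e : w u (q, true) - w u' (q, true) = E * (v u q - v u' q).re := by
        show (E : ℝ) * (v u q).re - E * (v u' q).re = _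
        rw [Complex.sub_re]; ring
      rwa [e] at this
    have h2 : |E * (v u q - v u' q).im| < 1 := by
      have := hd (q, false)
      have e : w u (q, false) - w u' (q, false) = E * (v u q - v u' q).im := by
        show (E : ℝ) * (v u q).im - E * (v u' q).im = _
        rw [Complex.sub_im]; ring
      rwa [e] at this
    rw [abs_mul, abs_of_pos hE0] at h1 h2
    have h3 := Complex.norm_le_abs_re_add_abs_im (v u q - v u' q)
    rw [le_div_iff₀ hE0]
    nlinarith

end Pool.Agent.W85.TD
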